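import Pool.Agent.N172.AF.Ex

/-! # The discriminant exponent of the associated form contravariant is one -/

set_option autoImplicit false

namespace Pool.Agent.Results.MP_2a8a61_ag.DiscriminantExponentOne

open MvPolynomial Pool.Agent.N172.AF

variable {n d : ℕ}

/-- The discriminant of forms of degree `d` in `n` variables: an irreducible polynomial in the
coefficients, which vanishes exactly at the forms whose partial derivatives have a common zero
different from the origin. -/
structure IsDiscriminant (Δ : MvPolynomial (Mon n d) ℂ) : Prop where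
  irreducible : Irreducible Δ
  zero_iff : ∀ c : Mon n d → ℂ, eval c Δ = 0 ↔
    ∃ p : Fin n → ℂ, p ≠ 0 ∧ ∀ i, eval p (pderiv i (form c)) = 0

/-- The ideal generated by the partial derivatives in the ring of power series. -/
noncomputable def jacobian (c : Mon n d → ℂ) : Ideal (MvPowerSeries (Fin n) ℂ) :=
  Ideal.span (Set.range fun i : Fin n =>
    ((pderiv i (form c) : MvPolynomial (Fin n) ℂ) : MvPowerSeries (Fin n) ℂ))

/-- `a` is the value at `zs` of the associated form of the form with coefficients `c`. -/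
def IsValue (c : Mon n d → ℂ) (zs : Fin n → ℂ) (a : ℂ) : Prop :=
  (((∑ i, C (zs i) * X i) ^ (n * (d - 2)) - C a * Hess (form c) : MvPolynomial (Fin n) ℂ) :
    MvPowerSeries (Fin n) ℂ) ∈ jacobian c

/-- The product of `Δ ^ p` and the associated form extends to a morphism on all forms of degree
`d`. -/
def Extends (Δ : MvPolynomial (Mon n d) ℂ) (p : ℕ) : Prop :=
  ∃ Ψ : Mon n (n * (d - 2)) → MvPolynomial (Mon n d) ℂ, ∀ c : Mon n d → ℂ, eval c Δ ≠ 0 →
    ∀ (zs : Fin n → ℂ) (a : ℂ), IsValue c zs a →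
      ∑ β, eval c (Ψ β) * ∏ i, zs i ^ β.1 i = eval c Δ ^ p * a

/-- The associated form is well defined for nondegenerate forms, and the least exponent is `1`. -/
theorem result (n d : ℕ) (hn : 2 ≤ n) (hd : 3 ≤ d) (Δ : MvPolynomial (Mon n d) ℂ)
    (hΔ : IsDiscriminant Δ) :
    (∀ c : Mon n d → ℂ, eval c Δ ≠ 0 → ∀ zs : Fin n → ℂ, ∃! a : ℂ, IsValue c zs a) ∧
      IsLeast {p : ℕ | 0 < p ∧ Extends Δ p} 1 := by
  obtain ⟨P, h1, h2⟩ := exists_P hn hd Δ hΔ.irreducible hΔ.zero_iff
  have key : ∀ (c : Mon n d → ℂ) (zs : Fin n → ℂ) (a : ℂ), IsValue c zs a →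
      ∑ γ : Mon n (n * (d - 2)), eval c (C (coeff γ.1 ((∑ i, X i : MvPolynomial (Fin n) ℂ) ^
        (n * (d - 2)))) * P γ) * ∏ i, zs i ^ γ.1 i = eval c Δ * a := by
    intro c zs a ha
    have h3 := LL_ideal P h1 c _ ha
    rw [LL_sub, LL_pow, LL_Hess P Δ h2 c, sub_eq_zero] at h3
    rw [h3, mul_comm]
  refine ⟨fun c hc zs => ?_, ⟨one_pos, ?_⟩, fun p hp => hp.1⟩
  · have hg : ((∑ i, C (zs i) * X i : MvPolynomial (Fin n) ℂ) ^ (n * (d - 2))).IsHomogeneous
        (n * (d - 2)) := by
      have h3 : (∑ i, C (zs i) * X i : MvPolynomial (Fin n) ℂ).IsHomogeneous 1 := by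
        refine IsHomogeneous.sum _ _ _ fun i _ => ?_
        have := (isHomogeneous_C (Fin n) (zs i)).mul (isHomogeneous_X ℂ i)
        rwa [zero_add] at this
      simpa using h3.pow (n * (d - 2))
    obtain ⟨a, q, hq⟩ := exists_mem hn hd P h1 Δ h2 c hc hg
    have ha : IsValue c zs a := by
      rw [IsValue, hq, jacobian, Ideal.span, Submodule.mem_span_range_iff_exists_fun]
      refine ⟨fun i => ((q i : MvPolynomial (Fin n) ℂ) : MvPowerSeries (Fin n) ℂ), ?_⟩
      have h4 := map_sum (MvPolynomial.coeToMvPowerSeries.ringHom (σ := Fin n) (R := ℂ))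
        (fun i => q i * pderiv i (form c)) Finset.univ
      simp only [MvPolynomial.coeToMvPowerSeries.ringHom_apply] at h4
      rw [h4]
      exact Finset.sum_congr rfl fun i _ => by rw [smul_eq_mul, MvPolynomial.coe_mul]
    refine ⟨a, ha, fun b hb => ?_⟩
    have h3 := (key c zs b hb).symm.trans (key c zs a ha)
    exact mul_left_cancel₀ hc h3
  · exact ⟨fun γ => C (coeff γ.1 ((∑ i, X i : MvPolynomial (Fin n) ℂ) ^ (n * (d - 2)))) * P γ,
      fun c _ zs a ha => by rw [pow_one]; exact key c zs a ha⟩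

end Pool.Agent.Results.MP_2a8a61_ag.DiscriminantExponentOne
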